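import Pool.Agent.Helper20.P3F.St1
import Pool.Agent.Helper14.EQ.M_PIG

/-!
# Project P3F (MP_cb927e_an): module PIG3 (pigeonhole for `HtF`)
-/

set_option autoImplicit false

open MeasureTheory Set Filter Topology
open scoped ENNReal RealInnerProductSpace

namespace Pool.Agent.Helper69.P3F

open Pool.Agent.Helper68.LM (Pl BB Bd Av HL ft fm DQ)
open Pool.Agent.Helper20.RG Pool.Agent.Helper20.EQ Pool.Agent.Helper20.P3F
open Pool.Agent.Helper61.P3
open Pool.Agent.Helper14.EQ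
open Pool.Agent.Helper68.EP (elt GapP)

/-- one class: the part `HtF` -/
private theorem pig3_HtF (hYB : StYB) (φ τ : ℝ → ℝ) (c : Pl) (hG : Graph φ τ) (f : Pl → ℝ)
    (hf : BB f) (l k : ℤ) (x : Pl) (κ u : ℕ) :
    ENNReal.ofReal ((2 : ℝ) ^ l) * HtF c φ τ κ u k l f x ≤ ∑' J : ℤ, ∑' ρ : ℕ,
      ENNReal.ofReal ((2 : ℝ) ^ (J + 1 - (u : ℤ) - (ρ : ℤ))) *
        (if (u : ℝ) ≤ κ * ((J : ℝ) + 1 - l) then
          ((Hh c φ τ u ρ k (lev f J) x).ncard : ℝ≥0∞) else 0) := by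
  classical
  have hcard : ∀ (ρ : ℕ) (J : ℤ), ((Hh c φ τ u ρ k (lev f J) x).ncard : ℝ≥0∞) =
      ∑ j ∈ Finset.range (2 ^ u), (if (2 : ℝ) ^ (-((ρ : ℤ) + 1)) ≤ |Zc c φ τ u 0 k j (lev f J) x| then
        (1 : ℝ≥0∞) else 0) := by
    intro ρ J
    have e : Hh c φ τ u ρ k (lev f J) x = ((Finset.range (2 ^ u)).filter
        (fun j => (2 : ℝ) ^ (-((ρ : ℤ) + 1)) ≤ |Zc c φ τ u 0 k j (lev f J) x|) : Finset ℕ) := by
      ext j
      simp [Hh]
    rw [e, Set.ncard_coe_finset, Finset.sum_ite, Finset.sum_const_zero, add_zero,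
      Finset.sum_const, nsmul_eq_mul, mul_one]
  -- one chord, one height
  have hone : ∀ (j : ℕ) (J : ℤ), ‖Zc c φ τ u 0 k j (lev f J) x‖ₑ ≤ ∑' ρ : ℕ,
      ENNReal.ofReal ((2 : ℝ) ^ (-(ρ : ℤ))) *
        (if (2 : ℝ) ^ (-((ρ : ℤ) + 1)) ≤ |Zc c φ τ u 0 k j (lev f J) x| then (1 : ℝ≥0∞) else 0) := by
    intro j J
    have e2 : ‖Zc c φ τ u 0 k j (lev f J) x‖ₑ = ENNReal.ofReal |Zc c φ τ u 0 k j (lev f J) x| := by
      rw [← ofReal_norm, Real.norm_eq_abs]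
    rw [e2]
    refine (pig_dyadic _ (abs_nonneg _) (pig_Zc_le hYB φ τ c hG u k j _ (pig_BB_lev f hf J)
      (pig_lev_mem f J) x)).trans (le_of_eq ?_)
    refine tsum_congr (fun ρ => ?_)
    split_ifs <;> simp
  -- the function of the height
  set g : ℤ → ℝ≥0∞ := fun J => ∑' ρ : ℕ,
      ENNReal.ofReal ((2 : ℝ) ^ (J + 1 - (u : ℤ) - (ρ : ℤ))) *
        (if (u : ℝ) ≤ κ * ((J : ℝ) + 1 - l) then
          ((Hh c φ τ u ρ k (lev f J) x).ncard : ℝ≥0∞) else 0) with hg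
  have hinj : Function.Injective (fun n : ℕ => l - 1 + (n : ℤ)) := by
    intro a b hab
    simp only at hab
    omega
  refine le_trans ?_ (ENNReal.tsum_comp_le_tsum_of_injective hinj g)
  unfold HtF
  rw [← Summable.tsum_finsetSum (fun _ _ => ENNReal.summable), ← ENNReal.tsum_mul_left,
    ← ENNReal.tsum_mul_left]
  refine ENNReal.tsum_le_tsum (fun n => ?_)
  rw [hg]
  simp only
  by_cases hn : u ≤ κ * n
  · have hn' : (u : ℝ) ≤ κ * (((l - 1 + (n : ℤ) : ℤ) : ℝ) + 1 - l) := by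
      push_cast
      have h0 : (u : ℝ) ≤ κ * n := by exact_mod_cast hn
      have h1 : (l : ℝ) - 1 + n + 1 - l = n := by ring
      rw [h1]
      exact h0
    simp only [if_pos hn, if_pos hn']
    calc ENNReal.ofReal ((2 : ℝ) ^ l) * (ENNReal.ofReal (1 / (2 : ℝ) ^ u) *
          ∑ j ∈ Finset.range (2 ^ u), ENNReal.ofReal ((2 : ℝ) ^ n) *
            ‖Zc c φ τ u 0 k j (lev f (l - 1 + n)) x‖ₑ)
        ≤ ENNReal.ofReal ((2 : ℝ) ^ l) * (ENNReal.ofReal (1 / (2 : ℝ) ^ u) *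
          ∑ j ∈ Finset.range (2 ^ u), ENNReal.ofReal ((2 : ℝ) ^ n) * ∑' ρ : ℕ,
            ENNReal.ofReal ((2 : ℝ) ^ (-(ρ : ℤ))) *
              (if (2 : ℝ) ^ (-((ρ : ℤ) + 1)) ≤ |Zc c φ τ u 0 k j (lev f (l - 1 + n)) x| then
                (1 : ℝ≥0∞) else 0)) := by
          gcongr with j _
          exact hone j _
      _ = ∑' ρ : ℕ, ENNReal.ofReal ((2 : ℝ) ^ (l - 1 + (n : ℤ) + 1 - (u : ℤ) - (ρ : ℤ))) *
            ((Hh c φ τ u ρ k (lev f (l - 1 + n)) x).ncard : ℝ≥0∞) := by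
          rw [← Finset.mul_sum, ← Summable.tsum_finsetSum (fun _ _ => ENNReal.summable),
            ← ENNReal.tsum_mul_left, ← ENNReal.tsum_mul_left, ← ENNReal.tsum_mul_left]
          refine tsum_congr (fun ρ => ?_)
          rw [hcard ρ, ← Finset.mul_sum, ← mul_assoc, ← mul_assoc, ← mul_assoc,
            ← ENNReal.ofReal_mul (by positivity), ← ENNReal.ofReal_mul (by positivity),
            ← ENNReal.ofReal_mul (by positivity)]
          congr 2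
          rw [show (l - 1 + (n : ℤ) + 1 - (u : ℤ) - (ρ : ℤ))
              = l + -(u : ℤ) + (n : ℤ) + -(ρ : ℤ) by ring,
            zpow_add₀ (by norm_num) (l + -(u : ℤ) + (n : ℤ)) (-(ρ : ℤ)),
            zpow_add₀ (by norm_num) (l + -(u : ℤ)) (n : ℤ),
            zpow_add₀ (by norm_num) l (-(u : ℤ)), zpow_neg (2 : ℝ) (u : ℤ), zpow_natCast,
            zpow_natCast, one_div]
  · simp [if_neg hn]

/-- the numbers `b T` -/
private noncomputable def pe_b (e : ℝ) (C₂ Cρ : ℕ) (T : ℕ) : ℝ :=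
  4 * C₂ * Cρ * T * ((Cρ + 1) * T + 1) * ((2 : ℝ) ^ (-e)) ^ T

private theorem pe_b_nonneg (e : ℝ) (C₂ Cρ : ℕ) (T : ℕ) : 0 ≤ pe_b e C₂ Cρ T := by
  unfold pe_b; positivity

private theorem pe_b_summable (e : ℝ) (he : 0 < e) (C₂ Cρ : ℕ) : Summable (pe_b e C₂ Cρ) := by
  set r : ℝ := (2 : ℝ) ^ (-e) with hr
  have hr0 : 0 < r := Real.rpow_pos_of_pos (by norm_num) _
  have hr1 : r < 1 := Real.rpow_lt_one_of_one_lt_of_neg (by norm_num) (by linarith)
  have hn : ‖r‖ < 1 := by rw [Real.norm_eq_abs, abs_of_pos hr0]; exact hr1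
  have h1 := summable_pow_mul_geometric_of_norm_lt_one 1 hn
  have h2 := summable_pow_mul_geometric_of_norm_lt_one 2 hn
  have h3 := (h2.mul_left (4 * (C₂ : ℝ) * Cρ * (Cρ + 1))).add (h1.mul_left (4 * (C₂ : ℝ) * Cρ))
  refine h3.congr (fun T => ?_)
  unfold pe_b
  rw [← hr]
  ring

private theorem pe_real (e : ℝ) (C₂ Cρ T : ℕ) (l : ℤ) (ρ : ℕ) (hρ : ρ < Cρ * T) :
    (2 : ℝ) ^ (l + 1 - (T : ℤ)) * ((2 * (C₂ * (T + ρ + 1)) : ℕ) * (2 : ℝ) ^ ((1 - e) * T)) ≤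
      (2 : ℝ) ^ l * (4 * C₂ * ((Cρ + 1) * T + 1) * ((2 : ℝ) ^ (-(e))) ^ T) := by
  have e1' : (2 : ℝ) ^ (l + 1 - (T : ℤ)) * (2 : ℝ) ^ ((1 - e) * T) =
      2 * ((2 : ℝ) ^ l * ((2 : ℝ) ^ (-(e))) ^ T) := by
    rw [← Real.rpow_intCast, ← Real.rpow_intCast, ← Real.rpow_natCast, ← Real.rpow_mul (by norm_num),
      ← Real.rpow_add (by norm_num), ← Real.rpow_add (by norm_num)]
    have : (2 : ℝ) * (2 : ℝ) ^ ((l : ℝ) + -e * (T : ℝ)) =
        (2 : ℝ) ^ (1 + ((l : ℝ) + -e * (T : ℝ))) := by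
      rw [Real.rpow_add (by norm_num) 1, Real.rpow_one]
    rw [this]
    congr 1
    push_cast
    ring
  have h1 : ((2 * (C₂ * (T + ρ + 1)) : ℕ) : ℝ) ≤ 2 * (C₂ * ((Cρ + 1) * T + 1)) := by
    push_cast
    have h2 : (ρ : ℝ) ≤ Cρ * T := by exact_mod_cast hρ.le
    have h3 : (T : ℝ) + ρ + 1 ≤ (Cρ + 1) * T + 1 := by linarith
    have h4 : (0 : ℝ) ≤ C₂ := Nat.cast_nonneg _
    nlinarith [mul_le_mul_of_nonneg_left h3 h4]
  calc (2 : ℝ) ^ (l + 1 - (T : ℤ)) * ((2 * (C₂ * (T + ρ + 1)) : ℕ) * (2 : ℝ) ^ ((1 - e) * T))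
      = ((2 * (C₂ * (T + ρ + 1)) : ℕ) : ℝ) *
          ((2 : ℝ) ^ (l + 1 - (T : ℤ)) * (2 : ℝ) ^ ((1 - e) * T)) := by ring
    _ = ((2 * (C₂ * (T + ρ + 1)) : ℕ) : ℝ) * (2 * ((2 : ℝ) ^ l * ((2 : ℝ) ^ (-(e))) ^ T)) := by
        rw [e1']
    _ ≤ (2 * (C₂ * ((Cρ + 1) * T + 1))) * (2 * ((2 : ℝ) ^ l * ((2 : ℝ) ^ (-(e))) ^ T)) := by
        gcongr
    _ = _ := by ring

theorem hPIG3 (hYB : StYB) : Pool.Agent.Helper20.P3F.StPIG3 := by
  intro φ τ e c hG he0 he1 κ C₂ Cρ t₁ hκ hC₂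
  -- choice of `t₀`
  have hb := pe_b_summable e he0 C₂ Cρ
  have ht : Tendsto (fun i => ∑' k, pe_b e C₂ Cρ (k + i)) atTop (𝓝 0) := tendsto_sum_nat_add _
  obtain ⟨i, hi1, hi2⟩ := ((ht.eventually (gt_mem_nhds (by norm_num : (0 : ℝ) < 1 / 2))).and
    (eventually_ge_atTop (t₁ + 1))).exists
  obtain ⟨t₀, rfl⟩ : ∃ t₀, i = t₀ + 1 := ⟨i - 1, by omega⟩
  refine ⟨t₀, by omega, ?_⟩
  intro f l k x hf hf0 hle
  by_contra hcon
  simp only [not_or, not_exists, not_and] at hcon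
  obtain ⟨n1, n2, n3, n4⟩ := hcon
  set F : ℕ → ℕ → ℤ → ℝ≥0∞ := fun u ρ J => (if (u : ℝ) ≤ κ * ((J : ℝ) + 1 - l) then
    ((Hh c φ τ u ρ k (lev f J) x).ncard : ℝ≥0∞) else 0) with hF
  -- the main inequality
  have hmain : ENNReal.ofReal ((2 : ℝ) ^ l) * ENNReal.ofReal (1 / 2) ≤ ∑' t : ℤ, ∑' ρ : ℕ,
      ENNReal.ofReal ((2 : ℝ) ^ (l + 1 - t)) *
      ∑' u : ℕ, (if 2 ≤ u then F u ρ (l - t + u + ρ) else 0) := by
    rw [← pig_reorder F l]
    refine (mul_le_mul_right hle _).trans ?_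
    rw [← ENNReal.tsum_mul_left]
    refine ENNReal.tsum_le_tsum (fun u => ?_)
    split_ifs with hu
    · exact pig3_HtF hYB φ τ c hG f hf l k x κ u
    · simp
  -- empty sets
  have hFe : ∀ (u ρ : ℕ) (J : ℤ), ¬ (Hh c φ τ u ρ k (lev f J) x).Nonempty → F u ρ J = 0 := by
    intro u ρ J h
    rw [Set.not_nonempty_iff_eq_empty] at h
    simp [hF, h]
  -- (F1)
  have F1 : ∀ (t : ℤ) (ρ : ℕ), t ≤ t₀ →
      ∑' u : ℕ, (if 2 ≤ u then F u ρ (l - t + u + ρ) else 0) = 0 := by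
    intro t ρ ht
    rw [ENNReal.tsum_eq_zero]
    intro u
    split_ifs with hu
    · exact hFe _ _ _ (n1 t ρ u ht hu)
    · rfl
  -- (F2)
  have F2 : ∀ (T ρ : ℕ), t₀ ≤ T → Cρ * T ≤ ρ →
      ∑' u : ℕ, (if 2 ≤ u then F u ρ (l - (T : ℤ) + u + ρ) else 0) = 0 := by
    intro T ρ ht hρ
    rw [ENNReal.tsum_eq_zero]
    intro u
    split_ifs with hu
    · exact hFe _ _ _ (n2 T ρ u ht hρ hu)
    · rfl
  -- (F3)
  have F3 : ∀ (T ρ : ℕ), t₀ ≤ T → ρ ≤ Cρ * T →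
      ∑' u : ℕ, (if 2 ≤ u then F u ρ (l - (T : ℤ) + u + ρ) else 0) ≤
        ((2 * (C₂ * (T + ρ + 1)) : ℕ) : ℝ≥0∞) * ENNReal.ofReal ((2 : ℝ) ^ ((1 - e) * T)) := by
    intro T ρ ht hρ
    classical
    set L : ℕ := C₂ * (T + ρ + 1) with hL
    let P : ℕ → Prop := fun u => 2 ≤ u ∧ (Hh c φ τ u ρ k (lev f (l - (T : ℤ) + u + ρ)) x).Nonempty
    obtain ⟨U, hU1, hU2⟩ : ∃ U : Finset ℕ, U.card ≤ 2 * L ∧ ∀ u, P u → u ∈ U := by
      by_cases hex : ∃ u, L ≤ u ∧ P u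
      · refine ⟨Finset.range L ∪ Finset.Ico (Nat.find hex) (Nat.find hex + L), ?_, ?_⟩
        · refine (Finset.card_union_le _ _).trans ?_
          rw [Finset.card_range, Nat.card_Ico]
          omega
        · intro u hu
          rw [Finset.mem_union, Finset.mem_range, Finset.mem_Ico]
          by_cases hlt : u < L
          · exact Or.inl hlt
          · right
            have hmin : Nat.find hex ≤ u := Nat.find_min' hex ⟨not_lt.1 hlt, hu⟩
            refine ⟨hmin, ?_⟩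
            by_contra hge
            obtain ⟨hf1, hf2⟩ := Nat.find_spec hex
            obtain ⟨s, hs⟩ := Nat.exists_eq_add_of_le hmin
            have hsL : L ≤ s := by omega
            refine n3 T ρ (Nat.find hex) s ht hρ hf1 hsL hf2.2 ?_
            have := hu.2
            rw [hs] at this
            push_cast at this ⊢
            exact this
      · refine ⟨Finset.range L, by rw [Finset.card_range]; omega, ?_⟩
        intro u hu
        rw [Finset.mem_range]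
        by_contra hge
        exact hex ⟨u, not_lt.1 hge, hu⟩
    have hsum : ∑' u : ℕ, (if 2 ≤ u then F u ρ (l - (T : ℤ) + u + ρ) else 0) =
        ∑ u ∈ U, (if 2 ≤ u then F u ρ (l - (T : ℤ) + u + ρ) else 0) := by
      refine tsum_eq_sum (fun u hu => ?_)
      split_ifs with h2
      · refine hFe _ _ _ (fun hne => hu (hU2 u ⟨h2, hne⟩))
      · rfl
    rw [hsum]
    have hterm : ∀ u ∈ U, (if 2 ≤ u then F u ρ (l - (T : ℤ) + u + ρ) else 0) ≤
        ENNReal.ofReal ((2 : ℝ) ^ ((1 - e) * T)) := by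
      intro u _
      split_ifs with h2
      · rw [hF]
        simp only
        split_ifs with h5
        · have h6 : (u : ℝ) ≤ κ * ((u : ℝ) - T + ρ + 1) := by
            refine h5.trans (le_of_eq ?_)
            push_cast
            ring
          have h3 := n4 T ρ u ht hρ h2 h6
          rw [not_le] at h3
          rw [← ENNReal.ofReal_natCast]
          exact ENNReal.ofReal_le_ofReal h3.le
        · exact bot_le
      · exact bot_le
    refine (Finset.sum_le_card_nsmul _ _ _ hterm).trans ?_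
    rw [nsmul_eq_mul]
    gcongr
  -- the sum over `ρ`
  have hg : ∀ T : ℕ, t₀ ≤ T → ∑' ρ : ℕ, ENNReal.ofReal ((2 : ℝ) ^ (l + 1 - (T : ℤ))) *
      ∑' u : ℕ, (if 2 ≤ u then F u ρ (l - (T : ℤ) + u + ρ) else 0) ≤
        ENNReal.ofReal ((2 : ℝ) ^ l) * ENNReal.ofReal (pe_b e C₂ Cρ T) := by
    intro T hT
    rw [tsum_eq_sum (s := Finset.range (Cρ * T))]
    · have hterm : ∀ ρ ∈ Finset.range (Cρ * T), ENNReal.ofReal ((2 : ℝ) ^ (l + 1 - (T : ℤ))) *
          ∑' u : ℕ, (if 2 ≤ u then F u ρ (l - (T : ℤ) + u + ρ) else 0) ≤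
          ENNReal.ofReal ((2 : ℝ) ^ l * (4 * C₂ * ((Cρ + 1) * T + 1) *
            ((2 : ℝ) ^ (-(e))) ^ T)) := by
        intro ρ hρ
        rw [Finset.mem_range] at hρ
        refine le_trans (mul_le_mul_right (F3 T ρ hT hρ.le) _) ?_
        rw [← ENNReal.ofReal_natCast, ← ENNReal.ofReal_mul (by positivity),
          ← ENNReal.ofReal_mul (by positivity)]
        exact ENNReal.ofReal_le_ofReal (pe_real e C₂ Cρ T l ρ hρ)
      refine (Finset.sum_le_card_nsmul _ _ _ hterm).trans (le_of_eq ?_)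
      rw [Finset.card_range, nsmul_eq_mul, ← ENNReal.ofReal_natCast,
        ← ENNReal.ofReal_mul (by positivity), ← ENNReal.ofReal_mul (by positivity)]
      congr 1
      unfold pe_b
      push_cast
      ring
    · intro ρ hρ
      rw [Finset.mem_range, not_lt] at hρ
      rw [F2 T ρ hT hρ, mul_zero]
  -- the sum over `t`
  have hinj : Function.Injective (fun m : ℕ => ((m + (t₀ + 1) : ℕ) : ℤ)) := by
    intro a b hab
    simp only at hab
    omega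
  have hfin : ∑' t : ℤ, ∑' ρ : ℕ,
      ENNReal.ofReal ((2 : ℝ) ^ (l + 1 - t)) *
      ∑' u : ℕ, (if 2 ≤ u then F u ρ (l - t + u + ρ) else 0) ≤
      ENNReal.ofReal ((2 : ℝ) ^ l) * ENNReal.ofReal (∑' m, pe_b e C₂ Cρ (m + (t₀ + 1))) := by
    rw [← hinj.tsum_eq]
    · rw [ENNReal.ofReal_tsum_of_nonneg (fun m => pe_b_nonneg _ _ _ _)
        ((summable_nat_add_iff (t₀ + 1)).2 hb), ← ENNReal.tsum_mul_left]
      refine ENNReal.tsum_le_tsum (fun m => ?_)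
      exact hg (m + (t₀ + 1)) (by omega)
    · intro t ht
      rw [Function.mem_support] at ht
      by_cases h2 : t ≤ t₀
      · exfalso
        apply ht
        rw [ENNReal.tsum_eq_zero]
        intro ρ
        rw [F1 t ρ h2, mul_zero]
      · refine ⟨(t - (t₀ + 1)).toNat, ?_⟩
        simp only
        omega
  have hlt : ENNReal.ofReal ((2 : ℝ) ^ l) * ENNReal.ofReal (∑' m, pe_b e C₂ Cρ (m + (t₀ + 1))) <
      ENNReal.ofReal ((2 : ℝ) ^ l) * ENNReal.ofReal (1 / 2) := by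
    rw [← ENNReal.ofReal_mul (by positivity), ← ENNReal.ofReal_mul (by positivity)]
    refine (ENNReal.ofReal_lt_ofReal_iff (by positivity)).2 ?_
    have : (0 : ℝ) < (2 : ℝ) ^ l := by positivity
    nlinarith
  exact absurd (hmain.trans hfin) (not_le.2 hlt)

end Pool.Agent.Helper69.P3F
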