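import Pool.Agent.Helper20.P3F.St1

/-! Project P3F, module HBS3: two classes, summation (copy of Helper2.EQ.M_HBS). -/

set_option autoImplicit false

open MeasureTheory Set Filter Topology
open scoped ENNReal RealInnerProductSpace

namespace Pool.Agent.Helper69.P3F

open Pool.Agent.Helper68.LM (Pl BB Bd Av HL ft fm DQ)
open Pool.Agent.Helper20.RG Pool.Agent.Helper20.EQ Pool.Agent.Helper20.P3F
open Pool.Agent.Helper68.EP (elt GapP)

/-- exchange of the sums -/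
private theorem sumA (p : ℝ) (N : ℕ) (a R : ℕ → ℝ≥0∞) (W : ℕ → ℤ → ℕ → ℝ≥0∞)
    (h : ∀ s, N ≤ s → ∑' l : ℤ, ENNReal.ofReal ((2 : ℝ) ^ (p * l)) * ∑' u : ℕ, W s l u ≤ R s) :
    ∑' l : ℤ, ENNReal.ofReal ((2 : ℝ) ^ (p * l)) *
      ∑' (u : ℕ) (s : ℕ), (if N ≤ s then a s * W s l u else 0) ≤
      ∑' s, (if N ≤ s then a s * R s else 0) := by
  calc ∑' l : ℤ, ENNReal.ofReal ((2 : ℝ) ^ (p * l)) *
      ∑' (u : ℕ) (s : ℕ), (if N ≤ s then a s * W s l u else 0)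
      = ∑' l : ℤ, ∑' s : ℕ, (if N ≤ s then
        a s * (ENNReal.ofReal ((2 : ℝ) ^ (p * l)) * ∑' u : ℕ, W s l u) else 0) := by
        refine tsum_congr fun l => ?_
        rw [ENNReal.tsum_comm, ← ENNReal.tsum_mul_left]
        refine tsum_congr fun s => ?_
        split_ifs
        · rw [ENNReal.tsum_mul_left]; ring
        · simp
    _ = ∑' s : ℕ, (if N ≤ s then
        a s * ∑' l : ℤ, (ENNReal.ofReal ((2 : ℝ) ^ (p * l)) * ∑' u : ℕ, W s l u) else 0) := by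
        rw [ENNReal.tsum_comm]
        refine tsum_congr fun s => ?_
        split_ifs
        · rw [ENNReal.tsum_mul_left]
        · simp
    _ ≤ _ := by
        refine ENNReal.tsum_le_tsum fun s => ?_
        split_ifs with hs
        · gcongr
          exact h s hs
        · exact le_rfl

private theorem geo_summable (a : ℝ) (ha : 0 < a) :
    Summable (fun s : ℕ => (2 : ℝ) ^ (-((s : ℝ) * a))) := by
  have h1 : ∀ s : ℕ, (2 : ℝ) ^ (-((s : ℝ) * a)) = ((2 : ℝ) ^ (-a)) ^ s := by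
    intro s
    rw [← Real.rpow_natCast, ← Real.rpow_mul (by norm_num)]
    congr 1
    ring
  simp only [h1]
  apply summable_geometric_of_lt_one (by positivity)
  rw [Real.rpow_neg (by norm_num)]
  exact inv_lt_one_of_one_lt₀ (Real.one_lt_rpow (by norm_num) ha)

/-- the sum of the geometric series -/
private noncomputable def K0 : ℝ := ∑' s : ℕ, (2 : ℝ) ^ (-((s : ℝ) * (1 / 512)))

private theorem K0_pos : 0 < K0 := by
  unfold K0
  exact (geo_summable (1 / 512) (by norm_num)).tsum_pos (fun _ => by positivity) 0 (by positivity)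

private theorem geoK0 :
    ∑' s : ℕ, ENNReal.ofReal ((2 : ℝ) ^ (-((s : ℝ) * (1 / 512)))) = ENNReal.ofReal K0 := by
  unfold K0
  rw [ENNReal.ofReal_tsum_of_nonneg (fun _ => by positivity) (geo_summable _ (by norm_num))]

private theorem sumS (N : ℕ) (K : ℝ) (hK : 0 ≤ K) (F : ℝ≥0∞) (b : ℕ → ℝ≥0∞)
    (hb : ∀ s, N ≤ s → b s ≤ ENNReal.ofReal (K * (2 : ℝ) ^ (-((s : ℝ) / 256))) * F) :
    ∑' s, (if N ≤ s then b s else 0) ≤
      ENNReal.ofReal (K * (K0 * (2 : ℝ) ^ (-((N : ℝ) / 512)))) * F := by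
  have h1 : ∀ s : ℕ, (if N ≤ s then b s else 0) ≤
      ENNReal.ofReal ((2 : ℝ) ^ (-((s : ℝ) * (1 / 512)))) *
        (ENNReal.ofReal (K * (2 : ℝ) ^ (-((N : ℝ) / 512))) * F) := by
    intro s
    split_ifs with hs
    · refine (hb s hs).trans ?_
      rw [← mul_assoc, ← ENNReal.ofReal_mul (by positivity)]
      gcongr ENNReal.ofReal ?_ * _
      have e1 : (2 : ℝ) ^ (-((s : ℝ) / 256)) =
          (2 : ℝ) ^ (-((s : ℝ) * (1 / 512))) * (2 : ℝ) ^ (-((s : ℝ) / 512)) := by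
        rw [← Real.rpow_add (by norm_num)]
        congr 1
        ring
      have e2 : (2 : ℝ) ^ (-((s : ℝ) / 512)) ≤ (2 : ℝ) ^ (-((N : ℝ) / 512)) := by
        apply Real.rpow_le_rpow_of_exponent_le (by norm_num)
        have : (N : ℝ) ≤ s := by exact_mod_cast hs
        linarith
      rw [e1]
      have e3 : (0 : ℝ) ≤ (2 : ℝ) ^ (-((s : ℝ) * (1 / 512))) := by positivity
      calc K * ((2 : ℝ) ^ (-((s : ℝ) * (1 / 512))) * (2 : ℝ) ^ (-((s : ℝ) / 512)))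
          ≤ K * ((2 : ℝ) ^ (-((s : ℝ) * (1 / 512))) * (2 : ℝ) ^ (-((N : ℝ) / 512))) := by gcongr
        _ = _ := by ring
    · exact bot_le
  refine (ENNReal.tsum_le_tsum h1).trans ?_
  rw [ENNReal.tsum_mul_right, geoK0, ← mul_assoc, ← ENNReal.ofReal_mul K0_pos.le]
  refine le_of_eq ?_
  congr 2
  ring

theorem hHBS3 (hTWC3 : StTWC3) (hGDL : StGDL) (hRIX : StRIX) (hBUN : StBUN) (hWRF : StWRF)
    (hMIQ : StMIQ) : Pool.Agent.Helper20.P3F.StHBS3 := by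
  intro φ τ A p c hφ hA hG hp2 hp3
  obtain ⟨CT, C2, hCT, hC2, HT⟩ := hTWC3 φ τ A p c hφ hA hG (by linarith) hp3
  obtain ⟨CB, hCB, HB⟩ := hBUN φ τ A p c hφ hA hG (by linarith) 10000
  obtain ⟨CW, hCW, HW⟩ := hWRF φ τ A p hφ hA hG (by linarith)
  obtain ⟨CM, hCM, HM⟩ := hMIQ φ τ A p c hφ hA hG (by linarith)
  obtain ⟨hL1, hL2, hL3⟩ := hGDL
  have hK0 := K0_pos
  have hCT0 : 0 < CT := by linarith
  have hp0 : 0 < p := by linarith
  set K4 : ℝ := ∑' s : ℕ, (2 : ℝ) ^ (-((s : ℝ) * (1 / 4))) with hK4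
  have hK4p : 0 < K4 :=
    (geo_summable (1 / 4) (by norm_num)).tsum_pos (fun _ => by positivity) 0 (by positivity)
  have hK4e : ∑' s : ℕ, ENNReal.ofReal ((2 : ℝ) ^ (-((s : ℝ) * (1 / 4)))) = ENNReal.ofReal K4 := by
    rw [hK4, ENNReal.ofReal_tsum_of_nonneg (fun _ => by positivity)
      (geo_summable _ (by norm_num))]
  set S1 : ℝ := ∑' s : ℕ, (2 : ℝ) ^ (-((s : ℝ) * 1)) with hS1
  have hS1p : 0 < S1 :=
    (geo_summable 1 (by norm_num)).tsum_pos (fun _ => by positivity) 0 (by positivity)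
  have hS1e : ∑' s : ℕ, ENNReal.ofReal ((2 : ℝ) ^ (-((s : ℝ) * 1))) = ENNReal.ofReal S1 := by
    rw [hS1, ENNReal.ofReal_tsum_of_nonneg (fun _ => by positivity)
      (geo_summable _ (by norm_num))]
  -- the total constant
  set KK : ℝ := CT * CB + CT * CB + CT * K4 + CT * S1 + CT * (CW * 480) + CT * (CW * 16)
    + CT * CM + CT * CM with hKK
  have hKKp : 0 < KK := by positivity
  refine ⟨2 * CT + KK * K0, max C2 10240, by nlinarith [mul_pos hKKp hK0],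
    le_max_of_le_left hC2, fun R₀ t ρ f hR hf hf0 => ?_⟩
  have hRT : 2 * CT ≤ R₀ := by nlinarith [mul_pos hKKp hK0]
  set N : ℕ := max C2 10240 * (t + ρ + 1) with hN
  have hN1 : C2 * (t + ρ + 1) ≤ N := Nat.mul_le_mul_right _ (le_max_left _ _)
  have hN2 : 10240 * (t + ρ + 1) ≤ N := Nat.mul_le_mul_right _ (le_max_right _ _)
  have hN3 : 10240 ≤ N := by
    calc 10240 = 10240 * 1 := by ring
      _ ≤ 10240 * (t + ρ + 1) := Nat.mul_le_mul_left _ (by omega)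
      _ ≤ N := hN2
  set F : ℝ≥0∞ := ∫⁻ x, ENNReal.ofReal (f x) ^ p with hF
  set Q : ℝ := (2 : ℝ) ^ (p * ((t : ℝ) - ρ)) with hQ
  have hQp : 0 < Q := by positivity
  -- RIX
  have RX : ∀ (B : ℝ) (X : ℕ → (Pl → ℝ) → ℝ≥0∞), 0 ≤ B →
      (∀ g : Pl → ℝ, BB g → (∀ x, 0 ≤ g x ∧ g x ≤ 1) →
        ∑' u : ℕ, ENNReal.ofReal ((2 : ℝ) ^ (-(p * u))) * X u g ≤
          ENNReal.ofReal B * ∫⁻ x, ‖g x‖ₑ ^ 2) →
      ∑' l : ℤ, ENNReal.ofReal ((2 : ℝ) ^ (p * l)) * ∑' u : ℕ, X u (lev f (l - t + u + ρ)) ≤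
        ENNReal.ofReal (Q * B) * F := by
    intro B X hB hX
    have := hRIX p B X hp0 hB hX f (t : ℤ) ρ hf hf0
    simpa using this
  have RX2 : ∀ (B : ℝ) (X : ℕ → (Pl → ℝ) → ℝ≥0∞), 0 ≤ B →
      (∀ g : Pl → ℝ, BB g → (∀ x, 0 ≤ g x ∧ g x ≤ 1) →
        ∑' u : ℕ, ENNReal.ofReal ((2 : ℝ) ^ (-(p * u))) * X u g ≤
          ENNReal.ofReal B * ∫⁻ x, ‖g x‖ₑ ^ 2) → ∀ s : ℕ,
      ∑' l : ℤ, ENNReal.ofReal ((2 : ℝ) ^ (p * l)) *
        ∑' u : ℕ, X (u + s) (lev f (l - t + ((u + s : ℕ) : ℤ) + ρ)) ≤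
        ENNReal.ofReal (Q * B) * F := by
    intro B X hB hX s
    refine le_trans ?_ (RX B X hB hX)
    refine ENNReal.tsum_le_tsum fun l => mul_le_mul' le_rfl ?_
    exact ENNReal.tsum_comp_le_tsum_of_injective (add_left_injective s)
      (fun u => X u (lev f (l - t + (u : ℤ) + ρ)))
  -- the functions
  set Yf : ℕ → ℝ := fun s => (2 : ℝ) ^ ((s : ℝ) / 256) with hYf
  set X1 : ℕ → ℕ → (Pl → ℝ) → ℝ≥0∞ := fun s u g =>
    if 2 ≤ u ∧ Yf s ^ 3 ≤ (2 : ℝ) ^ u then BU c φ τ (Yf s) (ρ + 1) u g else 0 with hX1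
  set X3 : ℕ → ℕ → (Pl → ℝ) → ℝ≥0∞ := fun s u g =>
    ENNReal.ofReal ((2 : ℝ) ^ (-(((u : ℝ) + s) / 4)) * (2 : ℝ) ^ (p * u)) * ∫⁻ x, ‖g x‖ₑ ^ 2
    with hX3
  set X4 : ℕ → ℕ → (Pl → ℝ) → ℝ≥0∞ := fun s u g =>
    if s ≤ u then ENNReal.ofReal ((2 : ℝ) ^ (-(u : ℝ))) * ∫⁻ x, ‖g x‖ₑ ^ 2 else 0 with hX4
  set X5 : ℕ → ℕ → (Pl → ℝ) → ℝ≥0∞ := fun s u g =>
    if s ≤ u then WR τ ((2 : ℝ) ^ (s - 1)) 12 30 u g else 0 with hX5
  set X6 : ℕ → (Pl → ℝ) → ℝ≥0∞ := fun u g => if 1 ≤ u then WR τ 2 6 16 u g else 0 with hX6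
  set X7 : ℕ → (Pl → ℝ) → ℝ≥0∞ := fun u g => if 2 ≤ u then MI c φ τ u g else 0 with hX7
  -- the bounds for the functions
  have hY2 : ∀ s, N ≤ s → 2 ≤ Yf s := by
    intro s hs
    have h1 : (256 : ℝ) ≤ s := by
      have : 256 ≤ s := by omega
      exact_mod_cast this
    calc (2 : ℝ) = 2 ^ (1 : ℝ) := by norm_num
      _ ≤ (2 : ℝ) ^ ((s : ℝ) / 256) :=
        Real.rpow_le_rpow_of_exponent_le (by norm_num) (by rw [le_div_iff₀ (by norm_num)]; linarith)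
  have b1 : ∀ s, N ≤ s → ∀ g : Pl → ℝ, BB g → (∀ x, 0 ≤ g x ∧ g x ≤ 1) →
      ∑' u : ℕ, ENNReal.ofReal ((2 : ℝ) ^ (-(p * u))) * X1 s u g ≤
        ENNReal.ofReal (CB * (ρ + 1) * (2 : ℝ) ^ (-((s : ℝ) / 256))) * ∫⁻ x, ‖g x‖ₑ ^ 2 := by
    intro s hs g hg _
    have h1 := HB (Yf s) (ρ + 1) g (hY2 s hs) (by omega) hg
    have e1 : ∀ u : ℕ, ENNReal.ofReal ((2 : ℝ) ^ (-(p * u))) * X1 s u g
        = (if 2 ≤ u ∧ Yf s ^ 3 ≤ (2 : ℝ) ^ u then ENNReal.ofReal ((2 : ℝ) ^ (-(p * u))) *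
        ∑' k : ℤ, ∑ j ∈ Finset.range (2 ^ u), ∫⁻ x, MD (sl τ u j) (ce c φ u j) (mm τ u j)
          (mp τ u j) (10000 * (Wt τ u (Yf s) (sl τ u j) + (ρ + 1))) k g x ^ 2 else 0) := by
      intro u
      simp only [hX1, mul_ite, mul_zero]
      rfl
    simp only [e1]
    refine h1.trans ?_
    gcongr
    · push_cast; exact le_rfl
    · have hy1 : 1 ≤ Yf s := by linarith [hY2 s hs]
      have e2 : (2 : ℝ) ^ (-((s : ℝ) / 256)) = Yf s ^ (-1 : ℝ) := by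
        simp only [hYf]
        rw [← Real.rpow_mul (by norm_num)]
        congr 1
        ring
      rw [e2]
      apply Real.rpow_le_rpow_of_exponent_le hy1
      rw [neg_le_neg_iff, le_div_iff₀ (by linarith)]
      nlinarith
  have b3 : ∀ s : ℕ, ∀ g : Pl → ℝ, BB g → (∀ x, 0 ≤ g x ∧ g x ≤ 1) →
      ∑' u : ℕ, ENNReal.ofReal ((2 : ℝ) ^ (-(p * u))) * X3 s u g ≤
        ENNReal.ofReal (K4 * (2 : ℝ) ^ (-((s : ℝ) / 4))) * ∫⁻ x, ‖g x‖ₑ ^ 2 := by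
    intro s g _ _
    have e1 : ∀ u : ℕ, ENNReal.ofReal ((2 : ℝ) ^ (-(p * u))) * X3 s u g
        = ENNReal.ofReal ((2 : ℝ) ^ (-((u : ℝ) * (1 / 4)))) *
          (ENNReal.ofReal ((2 : ℝ) ^ (-((s : ℝ) / 4))) * ∫⁻ x, ‖g x‖ₑ ^ 2) := by
      intro u
      simp only [hX3]
      rw [← mul_assoc, ← mul_assoc, ← ENNReal.ofReal_mul (by positivity),
        ← ENNReal.ofReal_mul (by positivity)]
      congr 2
      rw [← Real.rpow_add (by norm_num), ← Real.rpow_add (by norm_num),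
        ← Real.rpow_add (by norm_num)]
      congr 1
      ring
    simp only [e1]
    rw [ENNReal.tsum_mul_right, hK4e, ← mul_assoc, ← ENNReal.ofReal_mul hK4p.le]
  have b4 : ∀ s : ℕ, ∀ g : Pl → ℝ, BB g → (∀ x, 0 ≤ g x ∧ g x ≤ 1) →
      ∑' u : ℕ, ENNReal.ofReal ((2 : ℝ) ^ (-(p * u))) * X4 s u g ≤
        ENNReal.ofReal (S1 * (2 : ℝ) ^ (-(s : ℝ))) * ∫⁻ x, ‖g x‖ₑ ^ 2 := by
    intro s g _ _
    have e1 : ∀ u : ℕ, ENNReal.ofReal ((2 : ℝ) ^ (-(p * u))) * X4 s u g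
        ≤ ENNReal.ofReal ((2 : ℝ) ^ (-((u : ℝ) * 1))) *
          (ENNReal.ofReal ((2 : ℝ) ^ (-(s : ℝ))) * ∫⁻ x, ‖g x‖ₑ ^ 2) := by
      intro u
      simp only [hX4]
      split_ifs with hsu
      · rw [← mul_assoc, ← mul_assoc, ← ENNReal.ofReal_mul (by positivity),
          ← ENNReal.ofReal_mul (by positivity)]
        gcongr ENNReal.ofReal ?_ * _
        rw [← Real.rpow_add (by norm_num), ← Real.rpow_add (by norm_num)]
        apply Real.rpow_le_rpow_of_exponent_le (by norm_num)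
        have h1 : (s : ℝ) ≤ u := by exact_mod_cast hsu
        have h2 : (0 : ℝ) ≤ u := by positivity
        nlinarith
      · simp
    refine (ENNReal.tsum_le_tsum e1).trans ?_
    rw [ENNReal.tsum_mul_right, hS1e, ← mul_assoc, ← ENNReal.ofReal_mul hS1p.le]
  have b5 : ∀ s : ℕ, N ≤ s → ∀ g : Pl → ℝ, BB g → (∀ x, 0 ≤ g x ∧ g x ≤ 1) →
      ∑' u : ℕ, ENNReal.ofReal ((2 : ℝ) ^ (-(p * u))) * X5 s u g ≤
        ENNReal.ofReal (CW * 30 * (s + 1) * ((2 : ℝ) ^ (s - 1)) ^ (1 - p)) *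
          ∫⁻ x, ‖g x‖ₑ ^ 2 := by
    intro s hs g hg _
    have hs1 : (2 : ℝ) ≤ (2 : ℝ) ^ (s - 1) := by
      calc (2 : ℝ) = 2 ^ 1 := by norm_num
        _ ≤ (2 : ℝ) ^ (s - 1) := pow_le_pow_right₀ (by norm_num) (by omega)
    have hs2 : (2 : ℝ) ^ (s - 1) ≤ (2 : ℝ) ^ s := pow_le_pow_right₀ (by norm_num) (by omega)
    have h1 := HW s ((2 : ℝ) ^ (s - 1)) 12 30 g (by omega) hs1 hs2 (by norm_num) (by norm_num) hg
    have e1 : ∀ u : ℕ, ENNReal.ofReal ((2 : ℝ) ^ (-(p * u))) * X5 s u g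
        = (if s ≤ u then ENNReal.ofReal ((2 : ℝ) ^ (-(p * u))) *
        ∑' k : ℤ, ∑ j ∈ Finset.range (2 ^ u), ∫⁻ x, MC (sl τ u j) 12 30
          (Wt τ u ((2 : ℝ) ^ (s - 1)) (sl τ u j) + u + 1) k g x ^ 2 else 0) := by
      intro u
      simp only [hX5, mul_ite, mul_zero]
      rfl
    simp only [e1]
    exact h1
  have b6 : ∀ g : Pl → ℝ, BB g → (∀ x, 0 ≤ g x ∧ g x ≤ 1) →
      ∑' u : ℕ, ENNReal.ofReal ((2 : ℝ) ^ (-(p * u))) * X6 u g ≤
        ENNReal.ofReal (CW * 16) * ∫⁻ x, ‖g x‖ₑ ^ 2 := by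
    intro g hg _
    have h1 := HW 1 2 6 16 g le_rfl le_rfl (by norm_num) (by norm_num) (by norm_num) hg
    have e1 : ∀ u : ℕ, ENNReal.ofReal ((2 : ℝ) ^ (-(p * u))) * X6 u g
        = (if 1 ≤ u then ENNReal.ofReal ((2 : ℝ) ^ (-(p * u))) *
        ∑' k : ℤ, ∑ j ∈ Finset.range (2 ^ u), ∫⁻ x, MC (sl τ u j) 6 16
          (Wt τ u 2 (sl τ u j) + u + 1) k g x ^ 2 else 0) := by
      intro u
      simp only [hX6, mul_ite, mul_zero]
      rfl
    simp only [e1]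
    refine h1.trans ?_
    gcongr ENNReal.ofReal ?_ * _
    have e2 : (2 : ℝ) ^ (1 - p) ≤ 1 / 2 := by
      calc (2 : ℝ) ^ (1 - p) ≤ (2 : ℝ) ^ (-1 : ℝ) :=
            Real.rpow_le_rpow_of_exponent_le (by norm_num) (by linarith)
        _ = 1 / 2 := by rw [Real.rpow_neg_one]; norm_num
    push_cast
    nlinarith
  have b7 : ∀ g : Pl → ℝ, BB g → (∀ x, 0 ≤ g x ∧ g x ≤ 1) →
      ∑' u : ℕ, ENNReal.ofReal ((2 : ℝ) ^ (-(p * u))) * X7 u g ≤
        ENNReal.ofReal CM * ∫⁻ x, ‖g x‖ₑ ^ 2 := by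
    intro g hg _
    have h1 := HM g hg
    have e1 : ∀ u : ℕ, ENNReal.ofReal ((2 : ℝ) ^ (-(p * u))) * X7 u g
        = (if 2 ≤ u then ENNReal.ofReal ((2 : ℝ) ^ (-(p * u))) *
        ∑' k : ℤ, ∑ j ∈ Finset.range (2 ^ u), ∫⁻ x, ‖Zc c φ τ u 0 k j g x‖ₑ ^ 2 else 0) := by
      intro u
      simp only [hX7, mul_ite, mul_zero]
      rfl
    simp only [e1]
    exact h1
  -- the eight sums
  set lv : ℤ → ℕ → Pl → ℝ := fun l u => lev f (l - t + (u : ℤ) + ρ) with hlv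
  set P : ℝ := Q * ((32 : ℝ) ^ ρ * (ρ + 1) * (4 : ℝ) ^ t) with hP
  have hPp : 0 < P := by positivity
  have c1 : (1 : ℝ) ≤ (32 : ℝ) ^ ρ := one_le_pow₀ (by norm_num)
  have c2 : (1 : ℝ) ≤ (ρ : ℝ) + 1 := by
    have : (0 : ℝ) ≤ ρ := by positivity
    linarith
  have c3 : (1 : ℝ) ≤ (4 : ℝ) ^ t := one_le_pow₀ (by norm_num)
  have c4 : (4 : ℝ) ^ ρ ≤ (32 : ℝ) ^ ρ := pow_le_pow_left₀ (by norm_num) (by norm_num) _
  -- general summation
  have SUM : ∀ (K : ℝ) (a : ℕ → ℝ) (B : ℕ → ℝ) (W : ℕ → ℤ → ℕ → ℝ≥0∞), 0 ≤ K → (∀ s, 0 ≤ a s) →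
      (∀ s, 0 ≤ B s) →
      (∀ s, N ≤ s → ∑' l : ℤ, ENNReal.ofReal ((2 : ℝ) ^ (p * l)) * ∑' u : ℕ, W s l u ≤
        ENNReal.ofReal (Q * B s) * F) →
      (∀ s, N ≤ s → a s * (Q * B s) ≤ K * P * (2 : ℝ) ^ (-((s : ℝ) / 256))) →
      ∑' l : ℤ, ENNReal.ofReal ((2 : ℝ) ^ (p * l)) *
        ∑' (u : ℕ) (s : ℕ), (if N ≤ s then ENNReal.ofReal (a s) * W s l u else 0) ≤
        ENNReal.ofReal (K * (P * (K0 * (2 : ℝ) ^ (-((N : ℝ) / 512))))) * F := by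
    intro K a B W hK ha hB h1 h2
    refine (sumA p N (fun s => ENNReal.ofReal (a s)) (fun s => ENNReal.ofReal (Q * B s) * F) W
      h1).trans ?_
    have h3 := sumS N (K * P) (by positivity) F
      (fun s => ENNReal.ofReal (a s) * (ENNReal.ofReal (Q * B s) * F)) (by
        intro s hs
        rw [← mul_assoc, ← ENNReal.ofReal_mul (ha s)]
        gcongr ENNReal.ofReal ?_ * _
        exact h2 s hs)
    refine h3.trans (le_of_eq ?_)
    congr 2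
    ring
  have hcmp : ∀ (s : ℕ) (a : ℝ), 1 / 256 ≤ a →
      (2 : ℝ) ^ (-((s : ℝ) * a)) ≤ (2 : ℝ) ^ (-((s : ℝ) / 256)) := by
    intro s a ha
    apply Real.rpow_le_rpow_of_exponent_le (by norm_num)
    have : (0 : ℝ) ≤ s := by positivity
    nlinarith
  have hPQ : Q ≤ P := by
    rw [hP]
    have : (1 : ℝ) ≤ (32 : ℝ) ^ ρ * (ρ + 1) * (4 : ℝ) ^ t := by
      calc (1 : ℝ) = 1 * 1 * 1 := by norm_num
        _ ≤ (32 : ℝ) ^ ρ * (ρ + 1) * (4 : ℝ) ^ t := by gcongr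
    nlinarith
  have hPQ32 : (32 : ℝ) ^ ρ * Q ≤ P := by
    rw [hP]
    have : (32 : ℝ) ^ ρ * 1 * 1 ≤ (32 : ℝ) ^ ρ * (ρ + 1) * (4 : ℝ) ^ t := by gcongr
    nlinarith
  have hPQ32t : (32 : ℝ) ^ ρ * (4 : ℝ) ^ t * Q ≤ P := by
    rw [hP]
    have : (32 : ℝ) ^ ρ * 1 * (4 : ℝ) ^ t ≤ (32 : ℝ) ^ ρ * (ρ + 1) * (4 : ℝ) ^ t := by gcongr
    nlinarith
  have hPQ4 : (4 : ℝ) ^ ρ * Q ≤ P := by
    refine le_trans ?_ hPQ32
    gcongr
  have hPQ4r : (4 : ℝ) ^ ρ * ((ρ : ℝ) + 1) * Q ≤ P := by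
    rw [hP]
    have : (4 : ℝ) ^ ρ * (ρ + 1) * 1 ≤ (32 : ℝ) ^ ρ * (ρ + 1) * (4 : ℝ) ^ t := by gcongr
    nlinarith
  have T1 := SUM (CT * CB) (fun _ => CT * 4 ^ ρ)
    (fun s => CB * (ρ + 1) * (2 : ℝ) ^ (-((s : ℝ) / 256)))
    (fun s l u => X1 s u (lv l u)) (by positivity) (fun _ => by positivity)
    (fun _ => by positivity)
    (fun s hs => RX _ (X1 s) (by positivity) (b1 s hs))
    (fun s hs => by
      have h0 : (0 : ℝ) ≤ (2 : ℝ) ^ (-((s : ℝ) / 256)) := by positivity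
      calc CT * 4 ^ ρ * (Q * (CB * (ρ + 1) * (2 : ℝ) ^ (-((s : ℝ) / 256))))
          = CT * CB * ((4 : ℝ) ^ ρ * ((ρ : ℝ) + 1) * Q) * (2 : ℝ) ^ (-((s : ℝ) / 256)) := by ring
        _ ≤ CT * CB * P * (2 : ℝ) ^ (-((s : ℝ) / 256)) := by gcongr)
  have T2 := SUM (CT * CB) (fun _ => CT * 4 ^ ρ)
    (fun s => CB * (ρ + 1) * (2 : ℝ) ^ (-((s : ℝ) / 256)))
    (fun s l u => X1 s (u + s) (lv l (u + s))) (by positivity) (fun _ => by positivity)
    (fun _ => by positivity)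
    (fun s hs => RX2 _ (X1 s) (by positivity) (b1 s hs) s)
    (fun s hs => by
      have h0 : (0 : ℝ) ≤ (2 : ℝ) ^ (-((s : ℝ) / 256)) := by positivity
      calc CT * 4 ^ ρ * (Q * (CB * (ρ + 1) * (2 : ℝ) ^ (-((s : ℝ) / 256))))
          = CT * CB * ((4 : ℝ) ^ ρ * ((ρ : ℝ) + 1) * Q) * (2 : ℝ) ^ (-((s : ℝ) / 256)) := by ring
        _ ≤ CT * CB * P * (2 : ℝ) ^ (-((s : ℝ) / 256)) := by gcongr)
  have T3 := SUM (CT * K4) (fun _ => CT)
    (fun s => K4 * (2 : ℝ) ^ (-((s : ℝ) / 4)))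
    (fun s l u => X3 s u (lv l u)) (by positivity) (fun _ => by positivity)
    (fun _ => by positivity)
    (fun s hs => RX _ (X3 s) (by positivity) (b3 s))
    (fun s hs => by
      have h0 := hcmp s (1 / 4) (by norm_num)
      rw [mul_one_div] at h0
      calc CT * (Q * (K4 * (2 : ℝ) ^ (-((s : ℝ) / 4))))
          = CT * K4 * Q * (2 : ℝ) ^ (-((s : ℝ) / 4)) := by ring
        _ ≤ CT * K4 * P * (2 : ℝ) ^ (-((s : ℝ) / 256)) := by gcongr)
  have T4 := SUM (CT * S1) (fun _ => CT)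
    (fun s => S1 * (2 : ℝ) ^ (-(s : ℝ)))
    (fun s l u => X4 s (u + s) (lv l (u + s))) (by positivity) (fun _ => by positivity)
    (fun _ => by positivity)
    (fun s hs => RX2 _ (X4 s) (by positivity) (b4 s) s)
    (fun s hs => by
      have h0 := hcmp s 1 (by norm_num)
      rw [mul_one] at h0
      calc CT * (Q * (S1 * (2 : ℝ) ^ (-(s : ℝ))))
          = CT * S1 * Q * (2 : ℝ) ^ (-(s : ℝ)) := by ring
        _ ≤ CT * S1 * P * (2 : ℝ) ^ (-((s : ℝ) / 256)) := by gcongr)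
  have T5 := SUM (CT * (CW * 480)) (fun s => CT * (2 : ℝ) ^ ((s : ℝ) / 2))
    (fun s => CW * 30 * (s + 1) * ((2 : ℝ) ^ (s - 1)) ^ (1 - p))
    (fun s l u => X5 s (u + s) (lv l (u + s))) (by positivity) (fun _ => by positivity)
    (fun _ => by positivity)
    (fun s hs => RX2 _ (X5 s) (by positivity) (b5 s hs) s)
    (fun s hs => by
      have h0 := hcmp s (1 / 4) (by norm_num)
      rw [mul_one_div] at h0
      -- `(2^(s-1))^(1-p) ≤ 2 * 2^(-s)`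
      have h1 : ((2 : ℝ) ^ (s - 1)) ^ (1 - p) ≤ 2 * (2 : ℝ) ^ (-(s : ℝ)) := by
        have h11 : (1 : ℝ) ≤ (2 : ℝ) ^ (s - 1) := one_le_pow₀ (by norm_num)
        calc ((2 : ℝ) ^ (s - 1)) ^ (1 - p) ≤ ((2 : ℝ) ^ (s - 1)) ^ (-1 : ℝ) :=
              Real.rpow_le_rpow_of_exponent_le h11 (by linarith)
          _ = 2 * (2 : ℝ) ^ (-(s : ℝ)) := by
              rw [Real.rpow_neg_one, Real.rpow_neg (by norm_num), Real.rpow_natCast]
              obtain ⟨r, rfl⟩ : ∃ r, s = r + 1 := ⟨s - 1, by omega⟩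
              rw [Nat.add_sub_cancel, pow_succ]
              field_simp
      -- `s + 1 ≤ 8 * 2^(s/4)`
      have h2 : (s : ℝ) + 1 ≤ 8 * (2 : ℝ) ^ ((s : ℝ) / 4) := by
        have h21 : (9 / 8 : ℝ) ≤ (2 : ℝ) ^ (1 / 4 : ℝ) := by
          have : (9 / 8 : ℝ) = ((9 / 8 : ℝ) ^ (4 : ℝ)) ^ (1 / 4 : ℝ) := by
            rw [← Real.rpow_mul (by norm_num)]; norm_num
          rw [this]
          apply Real.rpow_le_rpow (by positivity) _ (by norm_num)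
          rw [show (4 : ℝ) = ((4 : ℕ) : ℝ) by norm_num, Real.rpow_natCast]
          norm_num
        have h22 : (2 : ℝ) ^ ((s : ℝ) / 4) = ((2 : ℝ) ^ (1 / 4 : ℝ)) ^ s := by
          rw [← Real.rpow_natCast, ← Real.rpow_mul (by norm_num)]
          congr 1
          ring
        rw [h22]
        have h23 : ((9 / 8 : ℝ)) ^ s ≤ ((2 : ℝ) ^ (1 / 4 : ℝ)) ^ s :=
          pow_le_pow_left₀ (by norm_num) h21 _
        have h24 := one_add_mul_le_pow (a := (1 / 8 : ℝ)) (by norm_num) s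
        have h25 : (1 + (1 / 8 : ℝ)) = 9 / 8 := by norm_num
        rw [h25] at h24
        linarith
      have h3 : (2 : ℝ) ^ ((s : ℝ) / 2) * (2 : ℝ) ^ ((s : ℝ) / 4) * (2 : ℝ) ^ (-(s : ℝ))
          = (2 : ℝ) ^ (-((s : ℝ) / 4)) := by
        rw [← Real.rpow_add (by norm_num), ← Real.rpow_add (by norm_num)]
        congr 1
        ring
      calc CT * (2 : ℝ) ^ ((s : ℝ) / 2) *
            (Q * (CW * 30 * (s + 1) * ((2 : ℝ) ^ (s - 1)) ^ (1 - p)))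
          ≤ CT * (2 : ℝ) ^ ((s : ℝ) / 2) *
            (Q * (CW * 30 * (8 * (2 : ℝ) ^ ((s : ℝ) / 4)) * (2 * (2 : ℝ) ^ (-(s : ℝ))))) := by
            gcongr
        _ = CT * (CW * 480) * Q * ((2 : ℝ) ^ ((s : ℝ) / 2) * (2 : ℝ) ^ ((s : ℝ) / 4) *
              (2 : ℝ) ^ (-(s : ℝ))) := by ring
        _ = CT * (CW * 480) * Q * (2 : ℝ) ^ (-((s : ℝ) / 4)) := by rw [h3]
        _ ≤ CT * (CW * 480) * P * (2 : ℝ) ^ (-((s : ℝ) / 256)) := by gcongr)
  have T6 := SUM (CT * (CW * 16)) (fun s => CT * 4 ^ ρ * (2 : ℝ) ^ (-((s : ℝ) / 8)))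
    (fun _ => CW * 16)
    (fun s l u => X6 u (lv l u)) (by positivity) (fun _ => by positivity)
    (fun _ => by positivity)
    (fun s hs => RX _ X6 (by positivity) b6)
    (fun s hs => by
      have h0 := hcmp s (1 / 8) (by norm_num)
      rw [mul_one_div] at h0
      calc CT * 4 ^ ρ * (2 : ℝ) ^ (-((s : ℝ) / 8)) * (Q * (CW * 16))
          = CT * (CW * 16) * (4 ^ ρ * Q) * (2 : ℝ) ^ (-((s : ℝ) / 8)) := by ring
        _ ≤ CT * (CW * 16) * P * (2 : ℝ) ^ (-((s : ℝ) / 256)) := by gcongr)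
  have T7 := SUM (CT * CM) (fun s => CT * 32 ^ ρ * (2 : ℝ) ^ (-((s : ℝ) / 32)))
    (fun _ => CM)
    (fun s l u => X7 (u + s) (lv l (u + s))) (by positivity) (fun _ => by positivity)
    (fun _ => by positivity)
    (fun s hs => RX2 _ X7 (by positivity) b7 s)
    (fun s hs => by
      have h0 := hcmp s (1 / 32) (by norm_num)
      rw [mul_one_div] at h0
      calc CT * 32 ^ ρ * (2 : ℝ) ^ (-((s : ℝ) / 32)) * (Q * CM)
          = CT * CM * (32 ^ ρ * Q) * (2 : ℝ) ^ (-((s : ℝ) / 32)) := by ring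
        _ ≤ CT * CM * P * (2 : ℝ) ^ (-((s : ℝ) / 256)) := by gcongr)
  have T8 := SUM (CT * CM) (fun s => CT * 32 ^ ρ * 4 ^ t * (2 : ℝ) ^ (-(s : ℝ)))
    (fun _ => CM)
    (fun s l u => X7 (u + s) (lv l (u + s))) (by positivity) (fun _ => by positivity)
    (fun _ => by positivity)
    (fun s hs => RX2 _ X7 (by positivity) b7 s)
    (fun s hs => by
      have h0 := hcmp s 1 (by norm_num)
      rw [mul_one] at h0
      calc CT * 32 ^ ρ * 4 ^ t * (2 : ℝ) ^ (-(s : ℝ)) * (Q * CM)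
          = CT * CM * (32 ^ ρ * 4 ^ t * Q) * (2 : ℝ) ^ (-(s : ℝ)) := by ring
        _ ≤ CT * CM * P * (2 : ℝ) ^ (-((s : ℝ) / 256)) := by gcongr)
  -- the pointwise bound
  have hpt : ∀ (l : ℤ) (u s : ℕ), (if N ≤ u ∧ N ≤ s then
      ∑' k : ℤ, volume {x | Gd R₀ l f x ∧ (Hh c φ τ u ρ k (lev f (l - t + u + ρ)) x).Nonempty ∧
        (Hh c φ τ (u + s) ρ k (lev f (l - t + (u + s) + ρ)) x).Nonempty} else 0) ≤
      (if N ≤ s then ENNReal.ofReal (CT * 4 ^ ρ) * X1 s u (lv l u) else 0) +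
      (if N ≤ s then ENNReal.ofReal (CT * 4 ^ ρ) * X1 s (u + s) (lv l (u + s)) else 0) +
      (if N ≤ s then ENNReal.ofReal CT * X3 s u (lv l u) else 0) +
      (if N ≤ s then ENNReal.ofReal CT * X4 s (u + s) (lv l (u + s)) else 0) +
      (if N ≤ s then ENNReal.ofReal (CT * (2 : ℝ) ^ ((s : ℝ) / 2)) *
        X5 s (u + s) (lv l (u + s)) else 0) +
      (if N ≤ s then ENNReal.ofReal (CT * 4 ^ ρ * (2 : ℝ) ^ (-((s : ℝ) / 8))) *
        X6 u (lv l u) else 0) +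
      (if N ≤ s then ENNReal.ofReal (CT * 32 ^ ρ * (2 : ℝ) ^ (-((s : ℝ) / 32))) *
        X7 (u + s) (lv l (u + s)) else 0) +
      (if N ≤ u then ENNReal.ofReal (CT * 32 ^ ρ * 4 ^ t * (2 : ℝ) ^ (-(u : ℝ))) *
        X7 (u + s) (lv l (u + s)) else 0) := by
    intro l u s
    by_cases h1 : N ≤ u ∧ N ≤ s
    swap
    · rw [if_neg h1]; exact bot_le
    · rw [if_pos h1]
      obtain ⟨hu, hs⟩ := h1
      simp only [if_pos hu, if_pos hs]
      have hg1 := hL1 f (l - t + u + ρ) hf hf0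
      have hg2 := hL1 f (l - t + (u + s) + ρ) hf hf0
      have key := HT u s t ρ (lev f (l - t + u + ρ)) (lev f (l - t + (u + s) + ρ))
        {x | Gd R₀ l f x} (hN1.trans hu) (hN1.trans hs) hg1.1 hg2.1 hg1.2 hg2.2 (by
          intro x hx
          have q1 := hL2 CT R₀ f l (l - t + u + ρ) x hCT hRT hf hf0 hx
          have q2 := hL2 CT R₀ f l (l - t + (u + s) + ρ) x hCT hRT hf hf0 hx
          have e1 : l - (l - (t : ℤ) + u + ρ) = (t : ℤ) - u - ρ := by ring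
          have e2 : l - (l - (t : ℤ) + (u + s) + ρ) = (t : ℤ) - u - s - ρ := by ring
          rw [e1] at q1
          rw [e2] at q2
          exact ⟨q1, q2⟩)
      have elv1 : lev f (l - t + u + ρ) = lv l u := rfl
      have elv2 : lev f (l - t + (u + s) + ρ) = lv l (u + s) := by
        simp only [hlv]; push_cast; rfl
      rw [elv1, elv2] at key ⊢
      refine key.trans ?_
      have f1 : (if ((2 : ℝ) ^ ((s : ℝ) / 256)) ^ 3 ≤ (2 : ℝ) ^ u then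
          BU c φ τ ((2 : ℝ) ^ ((s : ℝ) / 256)) (ρ + 1) u (lv l u) else 0)
          = X1 s u (lv l u) := by
        simp only [hX1, hYf]
        have : 2 ≤ u := by omega
        simp [this]
      have f2 : BU c φ τ ((2 : ℝ) ^ ((s : ℝ) / 256)) (ρ + 1) (u + s) (lv l (u + s))
          = X1 s (u + s) (lv l (u + s)) := by
        simp only [hX1, hYf]
        have g1 : 2 ≤ u + s := by omega
        have g2 : ((2 : ℝ) ^ ((s : ℝ) / 256)) ^ 3 ≤ (2 : ℝ) ^ (u + s) := by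
          rw [← Real.rpow_natCast, ← Real.rpow_mul (by norm_num), ← Real.rpow_natCast]
          apply Real.rpow_le_rpow_of_exponent_le (by norm_num)
          push_cast
          have : (0 : ℝ) ≤ u := by positivity
          have : (0 : ℝ) ≤ s := by positivity
          linarith
        rw [if_pos ⟨g1, g2⟩]
      have f3 : ENNReal.ofReal (CT * (2 : ℝ) ^ (-(((u : ℝ) + s) / 4)) * (2 : ℝ) ^ (p * u)) *
          (∫⁻ x, ‖lv l u x‖ₑ ^ 2) = ENNReal.ofReal CT * X3 s u (lv l u) := by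
        simp only [hX3]
        rw [← mul_assoc, ← ENNReal.ofReal_mul hCT0.le, mul_assoc CT]
      have f4 : ENNReal.ofReal (CT * (2 : ℝ) ^ (-((u : ℝ) + s))) *
          (∫⁻ x, ‖lv l (u + s) x‖ₑ ^ 2) = ENNReal.ofReal CT * X4 s (u + s) (lv l (u + s)) := by
        simp only [hX4]
        rw [if_pos (Nat.le_add_left s u), ← mul_assoc, ← ENNReal.ofReal_mul hCT0.le]
        push_cast
        rfl
      have f5 : WR τ ((2 : ℝ) ^ (s - 1)) 12 30 (u + s) (lv l (u + s))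
          = X5 s (u + s) (lv l (u + s)) := by
        simp only [hX5]
        rw [if_pos (Nat.le_add_left s u)]
      have f6 : WR τ 2 6 16 u (lv l u) = X6 u (lv l u) := by
        simp only [hX6]
        rw [if_pos (by omega)]
      have f7 : ENNReal.ofReal (CT * (32 : ℝ) ^ ρ * ((2 : ℝ) ^ (-((s : ℝ) / 32)) +
            (4 : ℝ) ^ t * (2 : ℝ) ^ (-(u : ℝ)))) * MI c φ τ (u + s) (lv l (u + s))
          = ENNReal.ofReal (CT * 32 ^ ρ * (2 : ℝ) ^ (-((s : ℝ) / 32))) *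
              X7 (u + s) (lv l (u + s)) +
            ENNReal.ofReal (CT * 32 ^ ρ * 4 ^ t * (2 : ℝ) ^ (-(u : ℝ))) *
              X7 (u + s) (lv l (u + s)) := by
        simp only [hX7]
        rw [if_pos (by omega), ← add_mul, ← ENNReal.ofReal_add (by positivity) (by positivity)]
        congr 2
        ring
      rw [f1, f2, f3, f4, f5, f6, f7]
      apply le_of_eq
      ring
  -- conclusion
  have hfin : P * (2 : ℝ) ^ (-((N : ℝ) / 512)) ≤ (2 : ℝ) ^ (-((t : ℝ) + ρ)) := by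
    have i1 : Q ≤ (2 : ℝ) ^ (3 * (t : ℝ)) := by
      apply Real.rpow_le_rpow_of_exponent_le (by norm_num)
      have h1 : (0 : ℝ) ≤ t := by positivity
      have h2 : (0 : ℝ) ≤ ρ := by positivity
      nlinarith
    have i2 : (32 : ℝ) ^ ρ = (2 : ℝ) ^ (5 * (ρ : ℝ)) := by
      rw [Real.rpow_mul (by norm_num), Real.rpow_natCast]
      norm_num
    have i3 : (ρ : ℝ) + 1 ≤ (2 : ℝ) ^ (ρ : ℝ) := by
      rw [Real.rpow_natCast]
      have : ρ + 1 ≤ 2 ^ ρ := Nat.lt_two_pow_self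
      exact_mod_cast this
    have i4 : (4 : ℝ) ^ t = (2 : ℝ) ^ (2 * (t : ℝ)) := by
      rw [Real.rpow_mul (by norm_num), Real.rpow_natCast]
      norm_num
    have i5 : (2 : ℝ) ^ (-((N : ℝ) / 512)) ≤ (2 : ℝ) ^ (-(20 * ((t : ℝ) + ρ + 1))) := by
      apply Real.rpow_le_rpow_of_exponent_le (by norm_num)
      have : ((10240 * (t + ρ + 1) : ℕ) : ℝ) ≤ N := by exact_mod_cast hN2
      push_cast at this
      linarith
    calc P * (2 : ℝ) ^ (-((N : ℝ) / 512))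
        ≤ ((2 : ℝ) ^ (3 * (t : ℝ)) * ((2 : ℝ) ^ (5 * (ρ : ℝ)) * (2 : ℝ) ^ (ρ : ℝ) *
          (2 : ℝ) ^ (2 * (t : ℝ)))) * (2 : ℝ) ^ (-(20 * ((t : ℝ) + ρ + 1))) := by
          rw [hP, i2, i4]
          gcongr
      _ = (2 : ℝ) ^ (3 * (t : ℝ) + (5 * (ρ : ℝ) + ρ + 2 * (t : ℝ)) +
          -(20 * ((t : ℝ) + ρ + 1))) := by
          rw [Real.rpow_add (by norm_num), Real.rpow_add (by norm_num),
            Real.rpow_add (by norm_num), Real.rpow_add (by norm_num)]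
      _ ≤ (2 : ℝ) ^ (-((t : ℝ) + ρ)) := by
          apply Real.rpow_le_rpow_of_exponent_le (by norm_num)
          have h1 : (0 : ℝ) ≤ t := by positivity
          have h2 : (0 : ℝ) ≤ ρ := by positivity
          linarith
  set Z0 : ℝ := P * (K0 * (2 : ℝ) ^ (-((N : ℝ) / 512))) with hZ0
  have hZp : 0 ≤ Z0 := by positivity
  have T8' : ∑' l : ℤ, ENNReal.ofReal ((2 : ℝ) ^ (p * l)) * ∑' (u : ℕ) (s : ℕ),
      (if N ≤ u then ENNReal.ofReal (CT * 32 ^ ρ * 4 ^ t * (2 : ℝ) ^ (-(u : ℝ))) *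
        X7 (u + s) (lv l (u + s)) else 0) ≤ ENNReal.ofReal (CT * CM * Z0) * F := by
    refine le_trans (le_of_eq ?_) T8
    refine tsum_congr fun l => ?_
    rw [ENNReal.tsum_comm]
    simp only [add_comm]
  calc ∑' l : ℤ, ENNReal.ofReal ((2 : ℝ) ^ (p * l)) * ∑' (u : ℕ) (s : ℕ),
        (if N ≤ u ∧ N ≤ s then
          ∑' k : ℤ, volume {x | Gd R₀ l f x ∧
            (Hh c φ τ u ρ k (lev f (l - t + u + ρ)) x).Nonempty ∧
            (Hh c φ τ (u + s) ρ k (lev f (l - t + (u + s) + ρ)) x).Nonempty} else 0)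
      ≤ ∑' l : ℤ, ENNReal.ofReal ((2 : ℝ) ^ (p * l)) * ∑' (u : ℕ) (s : ℕ),
        ((if N ≤ s then ENNReal.ofReal (CT * 4 ^ ρ) * X1 s u (lv l u) else 0) +
      (if N ≤ s then ENNReal.ofReal (CT * 4 ^ ρ) * X1 s (u + s) (lv l (u + s)) else 0) +
      (if N ≤ s then ENNReal.ofReal CT * X3 s u (lv l u) else 0) +
      (if N ≤ s then ENNReal.ofReal CT * X4 s (u + s) (lv l (u + s)) else 0) +
      (if N ≤ s then ENNReal.ofReal (CT * (2 : ℝ) ^ ((s : ℝ) / 2)) *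
        X5 s (u + s) (lv l (u + s)) else 0) +
      (if N ≤ s then ENNReal.ofReal (CT * 4 ^ ρ * (2 : ℝ) ^ (-((s : ℝ) / 8))) *
        X6 u (lv l u) else 0) +
      (if N ≤ s then ENNReal.ofReal (CT * 32 ^ ρ * (2 : ℝ) ^ (-((s : ℝ) / 32))) *
        X7 (u + s) (lv l (u + s)) else 0) +
      (if N ≤ u then ENNReal.ofReal (CT * 32 ^ ρ * 4 ^ t * (2 : ℝ) ^ (-(u : ℝ))) *
        X7 (u + s) (lv l (u + s)) else 0)) :=
        ENNReal.tsum_le_tsum fun l => mul_le_mul' le_rfl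
          (ENNReal.tsum_le_tsum fun u => ENNReal.tsum_le_tsum fun s => hpt l u s)
    _ ≤ ENNReal.ofReal (CT * CB * Z0) * F + ENNReal.ofReal (CT * CB * Z0) * F +
        ENNReal.ofReal (CT * K4 * Z0) * F + ENNReal.ofReal (CT * S1 * Z0) * F +
        ENNReal.ofReal (CT * (CW * 480) * Z0) * F + ENNReal.ofReal (CT * (CW * 16) * Z0) * F +
        ENNReal.ofReal (CT * CM * Z0) * F + ENNReal.ofReal (CT * CM * Z0) * F := by
        simp only [ENNReal.tsum_add, mul_add]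
        exact add_le_add (add_le_add (add_le_add (add_le_add (add_le_add (add_le_add
          (add_le_add T1 T2) T3) T4) T5) T6) T7) T8'
    _ = ENNReal.ofReal (KK * Z0) * F := by
        rw [← add_mul, ← add_mul, ← add_mul, ← add_mul, ← add_mul, ← add_mul, ← add_mul,
          ← ENNReal.ofReal_add (by positivity) (by positivity),
          ← ENNReal.ofReal_add (by positivity) (by positivity),
          ← ENNReal.ofReal_add (by positivity) (by positivity),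
          ← ENNReal.ofReal_add (by positivity) (by positivity),
          ← ENNReal.ofReal_add (by positivity) (by positivity),
          ← ENNReal.ofReal_add (by positivity) (by positivity),
          ← ENNReal.ofReal_add (by positivity) (by positivity)]
        congr 2
        rw [hKK]
        ring
    _ ≤ ENNReal.ofReal ((2 * CT + KK * K0) * (2 : ℝ) ^ (-((t : ℝ) + ρ))) * F := by
        gcongr ENNReal.ofReal ?_ * _
        have h0 : (0 : ℝ) < (2 : ℝ) ^ (-((t : ℝ) + ρ)) := by positivity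
        calc KK * Z0 = KK * K0 * (P * (2 : ℝ) ^ (-((N : ℝ) / 512))) := by rw [hZ0]; ring
          _ ≤ KK * K0 * (2 : ℝ) ^ (-((t : ℝ) + ρ)) := by gcongr
          _ ≤ _ := by nlinarith

end Pool.Agent.Helper69.P3F
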